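import Pool.Agent.H28.EN.Targets

/-!
# CLB: the lower bound on a window
-/

set_option autoImplicit false

open Finset Pool.Agent.H6.N4D Pool.Agent.H93.EB Pool.Agent.H28.EN

namespace Pool.Agent.H40.EN

theorem pf_CLB (h1 : T_GRE) (h2 : T_TOP) (h3 : T_MQF) (h4 : T_PHI) : T_CLB := by
  intro lam q N n θ φ _ hG
  have e1 : G (fq lam q) N n θ φ = G lam N n θ φ + G (dq lam q) N n θ φ := by
    unfold G
    rw [← add_div, ← Finset.sum_add_distrib]
    congr 1
    refine Finset.sum_congr rfl fun m _ => ?_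
    unfold fq dq D
    ring
  have e2 : G (fq lam q) N n θ φ ≤ M (fq lam q) N n := by
    rw [h1]
    refine (Complex.re_le_norm _).trans ?_
    rw [norm_mul]
    rw [norm_ee, one_mul]
    exact (h2 (fq lam q) N n).1 θ
  rw [h3 lam q N n]
  refine (h4.2.2.1 _ _).trans (h4.1 _ _ ?_)
  rw [← hG, ← e1]
  exact e2

end Pool.Agent.H40.EN
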